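import Mathlib

set_option autoImplicit false
open scoped ENNReal

namespace Pool.Agent.Results.MP_b39683_an.NonAmenableProper

/-- A discrete group is amenable if it has a finitely additive left-invariant probability measure
defined on all its subsets. -/
def IsAmenable (G : Type) [Group G] : Prop :=
  ∃ m : Set G → ℝ, (∀ A, 0 ≤ m A) ∧ m Set.univ = 1 ∧
    (∀ A B, Disjoint A B → m (A ∪ B) = m A + m B) ∧
    ∀ (g : G) (A : Set G), m ((fun x => g * x) ⁻¹' A) = m A

/-- `ℓ^p(G)`, the complex `L^p` space of the discrete group `G`. -/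
def LL (G : Type) (p : ℝ≥0∞) : Type := lp (fun _ : G => ℂ) p

noncomputable instance llNorm (G : Type) (p : ℝ≥0∞) [Fact (1 ≤ p)] :
    NormedAddCommGroup (LL G p) :=
  lp.normedAddCommGroup

noncomputable instance llSpace (G : Type) (p : ℝ≥0∞) [Fact (1 ≤ p)] : NormedSpace ℂ (LL G p) :=
  lp.instNormedSpace

/-- The value of an element of `ℓ^p(G)` at a point of `G`. -/
def LL.at {G : Type} {p : ℝ≥0∞} (f : LL G p) (s : G) : ℂ := f.1 s

/-- `T` commutes with all right translations `ρ_t f(s) = f(s t)`. -/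
def CommutesWithRightTranslations {G : Type} [Group G] {p : ℝ≥0∞} [Fact (1 ≤ p)]
    (T : LL G p →L[ℂ] LL G p) : Prop :=
  ∀ (t : G) (f g : LL G p), (∀ s, g.at s = f.at (s * t)) → ∀ s, (T g).at s = (T f).at (s * t)

/-- `T` is positive: it maps nonnegative functions to nonnegative functions. -/
def IsPositiveOp {G : Type} {p : ℝ≥0∞} [Fact (1 ≤ p)] (T : LL G p →L[ℂ] LL G p) : Prop :=
  ∀ f : LL G p, (∀ s, 0 ≤ (f.at s).re ∧ (f.at s).im = 0) →
    ∀ s, 0 ≤ ((T f).at s).re ∧ ((T f).at s).im = 0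

/-- `T` is regular: a complex linear combination of positive operators. -/
def IsRegularOp {G : Type} {p : ℝ≥0∞} [Fact (1 ≤ p)] (T : LL G p →L[ℂ] LL G p) : Prop :=
  ∃ (n : ℕ) (c : Fin n → ℂ) (P : Fin n → (LL G p →L[ℂ] LL G p)),
    (∀ k, IsPositiveOp (P k)) ∧ ∀ (f : LL G p) (s : G), (T f).at s = ∑ k, c k * (P k f).at s

/-- `ℓ^p(G)` in unfolded form -/
abbrev EllP (G : Type) (p : ℝ≥0∞) : Type := lp (fun _ : G => ℂ) p

/-- auxiliary form of `CommutesWithRightTranslations` -/
def CommutesRight {G : Type} [Group G] {p : ℝ≥0∞} [Fact (1 ≤ p)] (T : EllP G p →L[ℂ] EllP G p) :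
    Prop :=
  ∀ (t : G) (f g : EllP G p), (∀ s, g s = f (s * t)) → ∀ s, T g s = T f (s * t)

/-- auxiliary form of `IsPositiveOp` -/
def IsPos {G : Type} {p : ℝ≥0∞} [Fact (1 ≤ p)] (T : EllP G p →L[ℂ] EllP G p) : Prop :=
  ∀ f : EllP G p, (∀ s, 0 ≤ (f s).re ∧ (f s).im = 0) → ∀ s, 0 ≤ (T f s).re ∧ (T f s).im = 0

/-- auxiliary form of `IsRegularOp` -/
def IsRegular {G : Type} {p : ℝ≥0∞} [Fact (1 ≤ p)] (T : EllP G p →L[ℂ] EllP G p) : Prop :=
  T ∈ Submodule.span ℂ {P : EllP G p →L[ℂ] EllP G p | IsPos P}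

/-! ### Non-amenability of a product with a free group -/

theorem not_amenable (M : Type) [Group M] : ¬ IsAmenable (FreeGroup (Fin 2) × M) := by
  rintro ⟨m, hnn, huniv, hadd, hinv⟩
  let W : Fin 2 × Bool → Set (FreeGroup (Fin 2) × M) :=
    fun w => {x | x.1 ∈ FreeGroup.startsWith w}
  have hdis : ∀ w w', w ≠ w' → Disjoint (W w) (W w') := by
    intro w w' h
    rw [Set.disjoint_left]
    intro x hx hx'
    exact Set.disjoint_left.mp (FreeGroup.startsWith.disjoint_iff_ne.mpr h) hx hx'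
  have hmono : ∀ A B : Set (FreeGroup (Fin 2) × M), A ⊆ B → m A ≤ m B := by
    intro A B h
    have := hadd A (B \ A) Set.disjoint_sdiff_right
    rw [Set.union_sdiff_cancel h] at this
    rw [this]
    linarith [hnn (B \ A)]
  have hsub : ∀ A B : Set (FreeGroup (Fin 2) × M), m (A ∪ B) ≤ m A + m B := by
    intro A B
    have h1 : A ∪ B = A ∪ (B \ A) := by simp
    rw [h1, hadd _ _ Set.disjoint_sdiff_right]
    linarith [hmono (B \ A) B Set.sdiff_subset]
  have key : ∀ i : Fin 2, 1 ≤ m (W (i, true)) + m (W (i, false)) := by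
    intro i
    have h1 : (Set.univ : Set (FreeGroup (Fin 2) × M)) ⊆
        ((fun x => ((FreeGroup.mk [(i, true)], 1) : FreeGroup (Fin 2) × M) * x) ⁻¹' (W (i, true)))
          ∪ W (i, false) := by
      intro x _
      by_cases hx : x ∈ W (i, false)
      · exact Or.inr hx
      · left
        exact FreeGroup.startsWith_mk_mul (w := (i, true)) x.1 hx
    have h2 := (hmono _ _ h1).trans (hsub _ _)
    rw [huniv, hinv] at h2
    exact h2
  have k0 := key 0
  have k1 := key 1
  have d1 : Disjoint (W (0, true)) (W (0, false)) := hdis _ _ (by decide)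
  have d2 : Disjoint (W (1, true)) (W (1, false)) := hdis _ _ (by decide)
  have d3 : Disjoint (W (0, true) ∪ W (0, false)) (W (1, true) ∪ W (1, false)) := by
    rw [Set.disjoint_union_left, Set.disjoint_union_right, Set.disjoint_union_right]
    exact ⟨⟨hdis _ _ (by decide), hdis _ _ (by decide)⟩,
      ⟨hdis _ _ (by decide), hdis _ _ (by decide)⟩⟩
  have h3 := hadd _ _ d3
  rw [hadd _ _ d1, hadd _ _ d2] at h3
  have h4 := hmono _ Set.univ (Set.subset_univ
    ((W (0, true) ∪ W (0, false)) ∪ (W (1, true) ∪ W (1, false))))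
  rw [huniv] at h4
  linarith

/-! ### Left translations -/

section trans
variable {G : Type} [Group G] {p : ℝ≥0∞} [Fact (1 ≤ p)]

/-- left translation `f ↦ f(g⁻¹ ·)` on `ℓ^p(G)`, `p < ∞` -/
noncomputable def ltr (hp : p ≠ ∞) (g : G) : EllP G p →L[ℂ] EllP G p :=
  have hp0 : 0 < p.toReal := ENNReal.toReal_pos
    (zero_lt_one.trans_le (Fact.out : (1 : ℝ≥0∞) ≤ p)).ne' hp
  LinearMap.mkContinuous
    { toFun := fun f => ⟨fun s => f (g⁻¹ * s), by
        refine (memℓp_gen_iff hp0).mpr ?_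
        exact (Equiv.summable_iff (Equiv.mulLeft g⁻¹)).mpr ((lp.memℓp f).summable hp0)⟩
      map_add' := fun f f' => rfl
      map_smul' := fun c f => rfl } 1 (by
        intro f
        rw [one_mul]
        refine lp.norm_le_of_tsum_le hp0 (norm_nonneg _) ?_
        rw [lp.norm_rpow_eq_tsum hp0]
        exact (Equiv.tsum_eq (Equiv.mulLeft g⁻¹) (fun s => ‖f s‖ ^ p.toReal)).le)

theorem ltr_apply (hp : p ≠ ∞) (g : G) (f : EllP G p) (s : G) :
    (ltr hp g f) s = f (g⁻¹ * s) := rfl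

end trans

/-! ### Flat kernels on cyclic groups of order `3^n` -/

/-- the order of the cyclic group -/
abbrev q (n : ℕ) : ℕ := 3 ^ n

instance (n : ℕ) : NeZero (q n) := ⟨by positivity⟩

/-- the Gaussian kernel -/
noncomputable def chi (n : ℕ) (x : ZMod (q n)) : ℂ := ZMod.stdAddChar (x * x)

theorem norm_chi (n : ℕ) (x : ZMod (q n)) : ‖chi n x‖ = 1 := by
  unfold chi
  exact AddChar.norm_apply _ _

theorem chi_corr (n : ℕ) (u v : ZMod (q n)) :
    ∑ y : ZMod (q n), chi n (y - u) * (starRingEnd ℂ) (chi n (y - v))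
      = if u = v then (q n : ℂ) else 0 := by
  have h1 : ∀ y : ZMod (q n), chi n (y - u) * (starRingEnd ℂ) (chi n (y - v))
      = ZMod.stdAddChar (u * u - v * v) * ZMod.stdAddChar (y * (2 * (v - u))) := by
    intro y
    have hc : (starRingEnd ℂ) (chi n (y - v)) = ZMod.stdAddChar (-((y - v) * (y - v))) := by
      unfold chi
      rw [AddChar.map_neg_eq_conj]
    rw [hc]
    unfold chi
    rw [← AddChar.map_add_eq_mul, ← AddChar.map_add_eq_mul]
    congr 1
    ring
  simp only [h1]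
  rw [← Finset.mul_sum, AddChar.sum_mulShift _ (ZMod.isPrimitive_stdAddChar (q n))]
  have h2 : (2 * (v - u) = 0) ↔ u = v := by
    have hu : IsUnit (2 : ZMod (q n)) := by
      have : ((2 : ℕ) : ZMod (q n)) = 2 := by norm_num
      rw [← this, ZMod.isUnit_iff_coprime]
      exact Nat.Coprime.pow_right n (by norm_num)
    rw [hu.mul_right_eq_zero, sub_eq_zero, eq_comm]
  by_cases h : u = v
  · subst h
    simp
  · rw [if_neg h, if_neg (fun h' => h (h2.mp h'))]
    simp


/-- convolution by the Gaussian kernel on the cyclic group -/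
noncomputable def cv (n : ℕ) (g : ZMod (q n) → ℂ) (y : ZMod (q n)) : ℂ :=
  ∑ u, chi n (y - u) * g u

theorem flat_l2 (n : ℕ) (g : ZMod (q n) → ℂ) :
    ∑ y, ‖cv n g y‖ ^ 2 = (q n : ℝ) * ∑ u, ‖g u‖ ^ 2 := by
  have h : ((∑ y, ‖cv n g y‖ ^ 2 : ℝ) : ℂ) = (((q n : ℝ) * ∑ u, ‖g u‖ ^ 2 : ℝ) : ℂ) := by
    push_cast
    simp only [← Complex.mul_conj']
    unfold cv
    simp only [map_sum, map_mul, Finset.sum_mul_sum]
    rw [Finset.sum_comm]
    have : ∀ u : ZMod (q n), ∑ y : ZMod (q n), ∑ v : ZMod (q n),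
        chi n (y - u) * g u * ((starRingEnd ℂ) (chi n (y - v)) * (starRingEnd ℂ) (g v))
        = (3:ℂ) ^ n * (g u * (starRingEnd ℂ) (g u)) := by
      intro u
      rw [Finset.sum_comm]
      have h2 : ∀ v : ZMod (q n), ∑ y : ZMod (q n),
          chi n (y - u) * g u * ((starRingEnd ℂ) (chi n (y - v)) * (starRingEnd ℂ) (g v))
          = (g u * (starRingEnd ℂ) (g v)) * (if u = v then (q n : ℂ) else 0) := by
        intro v
        rw [← chi_corr, Finset.mul_sum]
        refine Finset.sum_congr rfl (fun y _ => ?_)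
        ring
      simp only [h2]
      rw [Finset.sum_eq_single u]
      · rw [if_pos rfl]
        push_cast
        ring
      · intro v _ hv
        rw [if_neg (Ne.symm hv), mul_zero]
      · intro h
        exact absurd (Finset.mem_univ _) h
    simp only [this]
    rw [Finset.mul_sum]
  exact_mod_cast h

theorem sum_rpow_le' {ι : Type} (s : Finset ι) (a : ι → ℝ) (ha : ∀ i, 0 ≤ a i) {t : ℝ}
    (ht0 : 0 ≤ t) (ht1 : t ≤ 1) (htp : t ≠ 0) : (∑ i ∈ s, a i) ^ t ≤ ∑ i ∈ s, a i ^ t := by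
  classical
  induction s using Finset.induction_on with
  | empty => simp [Real.zero_rpow htp]
  | insert i s hi ih =>
    rw [Finset.sum_insert hi, Finset.sum_insert hi]
    exact (Real.rpow_add_le_add_rpow (ha i) (Finset.sum_nonneg fun j _ => ha j) ht0 ht1).trans
      (add_le_add le_rfl ih)

/-- the exponent in the bound on `r`-th powers -/
noncomputable def bexp (r : ℝ) : ℝ := max 1 (r - 1)

theorem flat_lr (n : ℕ) (g : ZMod (q n) → ℂ) {r : ℝ} (hr : 1 ≤ r) :
    ∑ y, ‖cv n g y‖ ^ r ≤ (q n : ℝ) ^ (bexp r) * ∑ u, ‖g u‖ ^ r := by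
  have hr0 : 0 < r := by linarith
  have hN : (1 : ℝ) ≤ (q n : ℝ) := by
    have : 1 ≤ q n := Nat.one_le_pow _ _ (by norm_num)
    exact_mod_cast this
  have hN0 : (0 : ℝ) < (q n : ℝ) := by linarith
  have hcard : ((Finset.univ : Finset (ZMod (q n))).card : ℝ) = (q n : ℝ) := by
    rw [Finset.card_univ, ZMod.card]
  have hsq : ∀ z : ℂ, ‖z‖ ^ r = (‖z‖ ^ 2) ^ (r / 2) := by
    intro z
    rw [← Real.rpow_natCast, ← Real.rpow_mul (norm_nonneg _)]
    congr 1
    push_cast
    ring
  rcases le_total r 2 with h2 | h2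
  · -- `r ≤ 2`
    have e1 : ∑ y, ‖cv n g y‖ ^ r ≤ (q n : ℝ) ^ (1 - r / 2) * (∑ y, ‖cv n g y‖ ^ 2) ^ (r / 2) := by
      have hp : (1 : ℝ) ≤ 2 / r := by rw [le_div_iff₀ hr0]; linarith
      have h := Real.rpow_sum_le_const_mul_sum_rpow_of_nonneg (s := Finset.univ)
        (f := fun y => ‖cv n g y‖ ^ r) hp (fun y _ => Real.rpow_nonneg (norm_nonneg _) _)
      have h' : ∀ y, (‖cv n g y‖ ^ r) ^ (2 / r) = ‖cv n g y‖ ^ 2 := by
        intro y
        rw [← Real.rpow_mul (norm_nonneg _), mul_div_cancel₀ _ hr0.ne']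
        norm_num
      simp only [h', hcard] at h
      have hA : 0 ≤ ∑ y, ‖cv n g y‖ ^ r :=
        Finset.sum_nonneg fun y _ => Real.rpow_nonneg (norm_nonneg _) _
      have hB : 0 ≤ ∑ y, ‖cv n g y‖ ^ 2 := Finset.sum_nonneg fun y _ => by positivity
      have h3 := Real.rpow_le_rpow (Real.rpow_nonneg hA _) h (by linarith : 0 ≤ r / 2)
      rw [← Real.rpow_mul hA, Real.mul_rpow (Real.rpow_nonneg hN0.le _) hB,
        ← Real.rpow_mul hN0.le] at h3
      have e2 : 2 / r * (r / 2) = 1 := by field_simp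
      have e3 : (2 / r - 1) * (r / 2) = 1 - r / 2 := by field_simp
      rw [e2, e3, Real.rpow_one] at h3
      exact h3
    have e2 : (∑ u, ‖g u‖ ^ 2) ^ (r / 2) ≤ ∑ u, ‖g u‖ ^ r := by
      simp only [hsq]
      exact sum_rpow_le' _ _ (fun u => by positivity) (by linarith) (by linarith) (by
        have : 0 < r / 2 := by linarith
        exact this.ne')
    rw [flat_l2, Real.mul_rpow hN0.le (Finset.sum_nonneg fun u _ => by positivity)] at e1
    calc ∑ y, ‖cv n g y‖ ^ r
        ≤ (q n : ℝ) ^ (1 - r / 2) * ((q n : ℝ) ^ (r / 2) * (∑ u, ‖g u‖ ^ 2) ^ (r / 2)) := e1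
      _ = (q n : ℝ) ^ (1 : ℝ) * (∑ u, ‖g u‖ ^ 2) ^ (r / 2) := by
          rw [← mul_assoc, ← Real.rpow_add hN0]
          congr 2
          ring
      _ ≤ (q n : ℝ) ^ (bexp r) * ∑ u, ‖g u‖ ^ r := by
          refine mul_le_mul (Real.rpow_le_rpow_of_exponent_le hN (le_max_left _ _)) e2
            (Real.rpow_nonneg (Finset.sum_nonneg fun u _ => by positivity) _)
            (Real.rpow_nonneg hN0.le _)
  · -- `2 ≤ r`
    set S : ℝ := ∑ y, ‖cv n g y‖ ^ 2 with hS
    have hS0 : 0 ≤ S := Finset.sum_nonneg fun y _ => by positivity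
    have e1 : ∑ y, ‖cv n g y‖ ^ r ≤ S ^ (r / 2) := by
      have hterm : ∀ y ∈ (Finset.univ : Finset (ZMod (q n))),
          ‖cv n g y‖ ^ r ≤ ‖cv n g y‖ ^ 2 * S ^ (r / 2 - 1) := by
        intro y hy
        have hle : ‖cv n g y‖ ^ 2 ≤ S :=
          Finset.single_le_sum (f := fun y => ‖cv n g y‖ ^ 2) (fun y _ => by positivity) hy
        rw [hsq]
        have h0 : 0 ≤ ‖cv n g y‖ ^ 2 := by positivity
        have : (‖cv n g y‖ ^ 2) ^ (r / 2) = ‖cv n g y‖ ^ 2 * (‖cv n g y‖ ^ 2) ^ (r / 2 - 1) := by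
          rcases h0.eq_or_lt with h | h
          · rw [← h, zero_mul, Real.zero_rpow (by linarith)]
          · rw [Real.rpow_sub h, Real.rpow_one, ← mul_div_assoc, mul_comm, mul_div_assoc,
              div_self h.ne', mul_one]
        rw [this]
        exact mul_le_mul_of_nonneg_left (Real.rpow_le_rpow h0 hle (by linarith)) h0
      refine (Finset.sum_le_sum hterm).trans ?_
      rw [← Finset.sum_mul, ← hS]
      rcases hS0.eq_or_lt with h | h
      · rw [← h, zero_mul]
        exact Real.rpow_nonneg le_rfl _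
      · rw [Real.rpow_sub h, Real.rpow_one]
        apply le_of_eq
        field_simp
    have e2 : (∑ u, ‖g u‖ ^ 2) ^ (r / 2) ≤ (q n : ℝ) ^ (r / 2 - 1) * ∑ u, ‖g u‖ ^ r := by
      have h := Real.rpow_sum_le_const_mul_sum_rpow_of_nonneg (s := Finset.univ)
        (f := fun u => ‖g u‖ ^ 2) (p := r / 2) (by linarith) (fun y _ => by positivity)
      rw [hcard] at h
      simp only [hsq]
      exact h
    rw [hS, flat_l2, Real.mul_rpow hN0.le (Finset.sum_nonneg fun u _ => by positivity)] at e1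
    have hG : 0 ≤ ∑ u, ‖g u‖ ^ r := Finset.sum_nonneg fun y _ => Real.rpow_nonneg (norm_nonneg _) _
    calc ∑ y, ‖cv n g y‖ ^ r
        ≤ (q n : ℝ) ^ (r / 2) * (∑ u, ‖g u‖ ^ 2) ^ (r / 2) := e1
      _ ≤ (q n : ℝ) ^ (r / 2) * ((q n : ℝ) ^ (r / 2 - 1) * ∑ u, ‖g u‖ ^ r) :=
          mul_le_mul_of_nonneg_left e2 (Real.rpow_nonneg hN0.le _)
      _ = (q n : ℝ) ^ (r - 1) * ∑ u, ‖g u‖ ^ r := by
          rw [← mul_assoc, ← Real.rpow_add hN0]
          congr 2
          ring
      _ ≤ (q n : ℝ) ^ (bexp r) * ∑ u, ‖g u‖ ^ r :=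
          mul_le_mul_of_nonneg_right
            (Real.rpow_le_rpow_of_exponent_le hN (le_max_right _ _)) hG

/-! ### The group and the operators -/

/-- the amenable factor -/
abbrev MM : Type := Multiplicative (∀ n : ℕ, ZMod (q n))

/-- the group -/
abbrev GG : Type := FreeGroup (Fin 2) × MM

noncomputable instance : DecidableEq GG := Classical.decEq _

/-- the cyclic subgroups -/
noncomputable def ph (n : ℕ) (x : ZMod (q n)) : GG := (1, Multiplicative.ofAdd (Pi.single n x))

theorem ph_inv_mul (n : ℕ) (x y : ZMod (q n)) : (ph n x)⁻¹ * ph n y = ph n (y - x) := by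
  unfold ph
  ext1
  · simp
  · simp only [Prod.snd_mul, Prod.snd_inv]
    rw [← ofAdd_neg, ← ofAdd_add]
    congr 1
    ext k
    by_cases h : k = n
    · subst h
      simp [sub_eq_neg_add]
    · simp [Pi.single_eq_of_ne h]

theorem ph_injective (n : ℕ) : Function.Injective (ph n) := by
  intro x y h
  have h1 := congrArg Prod.snd h
  unfold ph at h1
  have h2 := Multiplicative.ofAdd.injective h1
  exact Pi.single_injective n h2

theorem ph_ne (n k : ℕ) (hnk : n ≠ k) (x : ZMod (q n)) (y : ZMod (q k)) (hx : x ≠ 0) :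
    ph n x ≠ ph k y := by
  intro h
  have h1 := congrArg Prod.snd h
  unfold ph at h1
  have h2 := congrFun (Multiplicative.ofAdd.injective h1) n
  rw [Pi.single_eq_same, Pi.single_eq_of_ne hnk] at h2
  exact hx h2

section ops
variable {p : ℝ≥0∞} [Fact (1 ≤ p)]

/-- left convolution by the Gaussian kernel on the `n`-th cyclic subgroup -/
noncomputable def KK (hp : p ≠ ∞) (n : ℕ) : EllP GG p →L[ℂ] EllP GG p :=
  ∑ x : ZMod (q n), chi n x • ltr hp (ph n x)

theorem KK_apply (hp : p ≠ ∞) (n : ℕ) (f : EllP GG p) (s : GG) :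
    (KK hp n f) s = ∑ x : ZMod (q n), chi n x * f ((ph n x)⁻¹ * s) := by
  unfold KK
  rw [sum_apply, lp.coeFn_sum, Finset.sum_apply]
  refine Finset.sum_congr rfl (fun x _ => ?_)
  rw [smul_apply, lp.coeFn_smul, Pi.smul_apply, ltr_apply, smul_eq_mul]

theorem KK_coset (hp : p ≠ ∞) (n : ℕ) (f : EllP GG p) (s : GG) (y : ZMod (q n)) :
    (KK hp n f) (ph n y * s) = cv n (fun u => f (ph n u * s)) y := by
  rw [KK_apply]
  unfold cv
  rw [← Equiv.sum_comp (Equiv.subLeft y)]
  refine Finset.sum_congr rfl (fun u _ => ?_)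
  rw [Equiv.subLeft_apply, ← mul_assoc, ph_inv_mul, sub_sub_cancel]

theorem avg (hp : p ≠ ∞) (n : ℕ) (f : EllP GG p) :
    (Summable fun s : GG => ∑ y : ZMod (q n), ‖f (ph n y * s)‖ ^ p.toReal) ∧
    ∑' s : GG, ∑ y : ZMod (q n), ‖f (ph n y * s)‖ ^ p.toReal = (q n : ℝ) * ‖f‖ ^ p.toReal := by
  have hp0 : 0 < p.toReal := ENNReal.toReal_pos
    (zero_lt_one.trans_le (Fact.out : (1 : ℝ≥0∞) ≤ p)).ne' hp
  have hs : ∀ y : ZMod (q n), Summable fun s : GG => ‖f (ph n y * s)‖ ^ p.toReal := fun y =>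
    (Equiv.summable_iff (Equiv.mulLeft (ph n y))).mpr ((lp.memℓp f).summable hp0)
  refine ⟨summable_sum fun y _ => hs y, ?_⟩
  rw [Summable.tsum_finsetSum (fun y _ => hs y)]
  have : ∀ y : ZMod (q n), ∑' s : GG, ‖f (ph n y * s)‖ ^ p.toReal = ‖f‖ ^ p.toReal := by
    intro y
    rw [lp.norm_rpow_eq_tsum hp0]
    exact Equiv.tsum_eq (Equiv.mulLeft (ph n y)) (fun s => ‖f s‖ ^ p.toReal)
  simp only [this]
  rw [Finset.sum_const, Finset.card_univ, ZMod.card, nsmul_eq_mul]

theorem KK_norm (hp : p ≠ ∞) (n : ℕ) :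
    ‖KK hp n‖ ≤ (q n : ℝ) ^ (bexp p.toReal / p.toReal) := by
  have hp0 : 0 < p.toReal := ENNReal.toReal_pos
    (zero_lt_one.trans_le (Fact.out : (1 : ℝ≥0∞) ≤ p)).ne' hp
  have hp1 : 1 ≤ p.toReal := by
    have := ENNReal.toReal_mono hp (Fact.out : (1 : ℝ≥0∞) ≤ p)
    simpa using this
  have hN0 : (0 : ℝ) < (q n : ℝ) := by positivity
  refine ContinuousLinearMap.opNorm_le_bound _ (Real.rpow_nonneg hN0.le _) (fun f => ?_)
  obtain ⟨s1, a1⟩ := avg hp n (KK hp n f)
  obtain ⟨s2, a2⟩ := avg hp n f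
  have h : (q n : ℝ) * ‖KK hp n f‖ ^ p.toReal
      ≤ (q n : ℝ) ^ (bexp p.toReal) * ((q n : ℝ) * ‖f‖ ^ p.toReal) := by
    rw [← a1, ← a2, ← tsum_mul_left]
    refine s1.tsum_le_tsum (fun s => ?_) (s2.mul_left _)
    simp only [KK_coset]
    exact flat_lr n _ hp1
  have h' : ‖KK hp n f‖ ^ p.toReal ≤ ((q n : ℝ) ^ (bexp p.toReal / p.toReal) * ‖f‖) ^ p.toReal := by
    rw [Real.mul_rpow (Real.rpow_nonneg hN0.le _) (norm_nonneg _), ← Real.rpow_mul hN0.le,
      div_mul_cancel₀ _ hp0.ne']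
    have : (q n : ℝ) * ‖KK hp n f‖ ^ p.toReal
        ≤ (q n : ℝ) * ((q n : ℝ) ^ (bexp p.toReal) * ‖f‖ ^ p.toReal) := by
      linarith [h, mul_left_comm ((q n : ℝ)) ((q n : ℝ) ^ (bexp p.toReal)) (‖f‖ ^ p.toReal)]
    exact le_of_mul_le_mul_left this hN0
  exact (Real.rpow_le_rpow_iff (norm_nonneg _)
    (mul_nonneg (Real.rpow_nonneg hN0.le _) (norm_nonneg _)) hp0).mp h'

omit [Fact (1 ≤ p)] in
theorem bexp_lt (hp : p ≠ ∞) (h1 : 1 < p) : bexp p.toReal / p.toReal < 1 := by
  have hp1 : 1 < p.toReal := by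
    have := (ENNReal.toReal_lt_toReal (by simp) hp).mpr h1
    simpa using this
  rw [div_lt_one (by linarith)]
  unfold bexp
  exact max_lt hp1 (by linarith)

/-- the coefficients -/
noncomputable def co (n : ℕ) : ℝ := ((n : ℝ) + 1) / (q n : ℝ)

theorem summable_ops (hp : p ≠ ∞) (h1 : 1 < p) :
    Summable fun n => ‖(co n : ℂ) • KK (p := p) hp n‖ := by
  set β : ℝ := bexp p.toReal / p.toReal with hβ
  have hβ1 : β < 1 := bexp_lt hp h1
  set ρ : ℝ := (3 : ℝ) ^ (β - 1) with hρ
  have hρ0 : 0 < ρ := Real.rpow_pos_of_pos (by norm_num) _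
  have hρ1 : ρ < 1 := Real.rpow_lt_one_of_one_lt_of_neg (by norm_num) (by linarith)
  have hs : Summable fun n : ℕ => ((n : ℝ) ^ 1 * ρ ^ n + (n : ℝ) ^ 0 * ρ ^ n) :=
    (summable_pow_mul_geometric_of_norm_lt_one 1 (by
      rw [Real.norm_eq_abs, abs_of_pos hρ0]; exact hρ1)).add
    (summable_pow_mul_geometric_of_norm_lt_one 0 (by
      rw [Real.norm_eq_abs, abs_of_pos hρ0]; exact hρ1))
  refine Summable.of_nonneg_of_le (fun n => norm_nonneg _) (fun n => ?_) hs
  have hN0 : (0 : ℝ) < (q n : ℝ) := by positivity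
  have hco : 0 ≤ co n := by unfold co; positivity
  calc ‖(co n : ℂ) • KK (p := p) hp n‖ = co n * ‖KK (p := p) hp n‖ := by
        rw [norm_smul, Complex.norm_real, Real.norm_eq_abs, abs_of_nonneg hco]
    _ ≤ co n * (q n : ℝ) ^ β := mul_le_mul_of_nonneg_left (KK_norm hp n) hco
    _ = ((n : ℝ) + 1) * ρ ^ n := by
        unfold co
        have e1 : (q n : ℝ) = (3 : ℝ) ^ (n : ℝ) := by push_cast; rw [Real.rpow_natCast]
        have e2 : ρ ^ n = (3 : ℝ) ^ ((n : ℝ) * β) / (3 : ℝ) ^ (n : ℝ) := by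
          rw [hρ, ← Real.rpow_natCast, ← Real.rpow_mul (by norm_num), ← Real.rpow_sub (by norm_num)]
          congr 1
          ring
        rw [e2, e1, ← Real.rpow_mul (by norm_num)]
        ring
    _ = _ := by ring

/-- the operator -/
noncomputable def TT (hp : p ≠ ∞) : EllP GG p →L[ℂ] EllP GG p :=
  ∑' n, (co n : ℂ) • KK hp n

theorem TT_hasSum (hp : p ≠ ∞) (h1 : 1 < p) (f : EllP GG p) (s : GG) :
    HasSum (fun n => (co n : ℂ) * (KK hp n f) s) ((TT hp f) s) := by
  have h := (summable_ops (p := p) hp h1).of_norm.hasSum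
  have h2 := h.mapL (ContinuousLinearMap.apply ℂ (EllP GG p) f)
  have h3 := h2.mapL (lp.evalCLM ℂ (fun _ : GG => ℂ) p s)
  exact h3

theorem KK_comm (hp : p ≠ ∞) (n : ℕ) : CommutesRight (KK (p := p) hp n) := by
  intro t f g hfg s
  rw [KK_apply, KK_apply]
  refine Finset.sum_congr rfl (fun x _ => ?_)
  rw [hfg, mul_assoc]

theorem TT_comm (hp : p ≠ ∞) (h1 : 1 < p) : CommutesRight (TT (p := p) hp) := by
  intro t f g hfg s
  have e1 := TT_hasSum hp h1 g s
  have e2 := TT_hasSum hp h1 f (s * t)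
  have h : (fun n => (co n : ℂ) * (KK hp n g) s) = fun n => (co n : ℂ) * (KK hp n f) (s * t) := by
    funext n
    rw [KK_comm hp n t f g hfg s]
  rw [h] at e1
  exact e1.unique e2

/-- matrix coefficients between points of the `n`-th cyclic subgroup -/
theorem TT_coeff (hp : p ≠ ∞) (h1 : 1 < p) (n : ℕ) (x y : ZMod (q n)) (hxy : x ≠ y) :
    ‖(TT hp (lp.single p (ph n x) (1 : ℂ))) (ph n y)‖ = co n := by
  have e1 := TT_hasSum hp h1 (lp.single p (ph n x) (1 : ℂ)) (ph n y)
  have e2 : ∀ k, k ≠ n → (co k : ℂ) * (KK hp k (lp.single p (ph n x) (1 : ℂ))) (ph n y) = 0 := by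
    intro k hk
    rw [KK_apply, Finset.sum_eq_zero, mul_zero]
    intro z _
    rw [lp.single_apply_ne, mul_zero]
    intro h
    have h3 : ph n (y - x) = ph k z := by
      have : ph n y = ph k z * ph n x := by rw [← h]; group
      have h4 : ph k z = ph n y * (ph n x)⁻¹ := by rw [this]; group
      rw [h4, ← ph_inv_mul]
      unfold ph
      ext1
      · simp
      · simp [mul_comm]
    exact ph_ne n k (Ne.symm hk) (y - x) z (sub_ne_zero.mpr (Ne.symm hxy)) h3
  have e3 := e1.unique (hasSum_single n e2)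
  rw [e3, norm_mul, Complex.norm_real, Real.norm_eq_abs,
    abs_of_nonneg (by unfold co; positivity)]
  have e4 : (KK hp n (lp.single p (ph n x) (1 : ℂ))) (ph n y) = chi n (y - x) := by
    rw [KK_apply, Finset.sum_eq_single (y - x)]
    · rw [ph_inv_mul, sub_sub_cancel, lp.single_apply_self, mul_one]
    · intro z _ hz
      rw [ph_inv_mul, lp.single_apply_ne, mul_zero]
      intro h
      apply hz
      have := ph_injective n h
      rw [← this]
      ring
    · intro h
      exact absurd (Finset.mem_univ _) h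
  rw [e4, norm_chi, mul_one]

/-- regular operators are dominated by positive ones on point masses -/
theorem regular_dom {T : EllP GG p →L[ℂ] EllP GG p} (hT : IsRegular T) :
    ∃ P : EllP GG p →L[ℂ] EllP GG p, ∀ u t : GG,
      ‖(T (lp.single p u (1 : ℂ))) t‖ ≤ ((P (lp.single p u (1 : ℂ))) t).re := by
  unfold IsRegular at hT
  induction hT using Submodule.span_induction with
  | mem P hP =>
    refine ⟨P, fun u t => ?_⟩
    have h := hP (lp.single p u (1 : ℂ)) (fun s => by
      by_cases hs : s = u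
      · subst hs
        rw [lp.single_apply_self]
        simp
      · rw [lp.single_apply_ne _ _ _ hs]
        simp) t
    have h2 : (P (lp.single p u (1 : ℂ))) t
        = (((P (lp.single p u (1 : ℂ))) t).re : ℂ) := by
      apply Complex.ext
      · simp
      · simpa using h.2
    conv_lhs => rw [h2]
    rw [Complex.norm_real, Real.norm_eq_abs, abs_of_nonneg h.1]
  | zero => exact ⟨0, fun u t => by simp⟩
  | add S T _ _ hS hT =>
    obtain ⟨P, hP⟩ := hS
    obtain ⟨Q, hQ⟩ := hT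
    refine ⟨P + Q, fun u t => ?_⟩
    have e1 := hP u t
    have e2 := hQ u t
    calc ‖((S + T) (lp.single p u (1 : ℂ))) t‖
        = ‖(S (lp.single p u (1 : ℂ))) t + (T (lp.single p u (1 : ℂ))) t‖ := rfl
      _ ≤ _ := norm_add_le _ _
      _ ≤ ((P (lp.single p u (1 : ℂ))) t).re + ((Q (lp.single p u (1 : ℂ))) t).re := add_le_add e1 e2
      _ = _ := by rw [← Complex.add_re]; rfl
  | smul c S _ hS =>
    obtain ⟨P, hP⟩ := hS
    refine ⟨(‖c‖ : ℂ) • P, fun u t => ?_⟩
    calc ‖((c • S) (lp.single p u (1 : ℂ))) t‖ = ‖c * (S (lp.single p u (1 : ℂ))) t‖ := rfl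
      _ = ‖c‖ * ‖(S (lp.single p u (1 : ℂ))) t‖ := norm_mul _ _
      _ ≤ ‖c‖ * ((P (lp.single p u (1 : ℂ))) t).re := mul_le_mul_of_nonneg_left (hP u t) (norm_nonneg _)
      _ = (((‖c‖ : ℂ) * (P (lp.single p u (1 : ℂ))) t)).re := by rw [Complex.re_ofReal_mul]
      _ = _ := rfl

theorem TT_not_regular (hp : p ≠ ∞) (h1 : 1 < p) : ¬ IsRegular (TT (p := p) hp) := by
  intro hreg
  obtain ⟨P, hP⟩ := regular_dom hreg
  have hp0 : 0 < p.toReal := ENNReal.toReal_pos
    (zero_lt_one.trans_le (Fact.out : (1 : ℝ≥0∞) ≤ p)).ne' hp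
  have hpz : p ≠ 0 := (zero_lt_one.trans_le (Fact.out : (1 : ℝ≥0∞) ≤ p)).ne'
  have main : ∀ n : ℕ, co n * ((q n : ℝ) - 1) ≤ ‖P‖ := by
    intro n
    have hN0 : (0 : ℝ) < (q n : ℝ) := by positivity
    have hN1 : (1 : ℝ) ≤ (q n : ℝ) := by
      have : 1 ≤ q n := Nat.one_le_pow _ _ (by norm_num)
      exact_mod_cast this
    have hco : 0 ≤ co n := by unfold co; positivity
    set f : EllP GG p := ∑ x : ZMod (q n), lp.single p (ph n x) (1 : ℂ) with hf
    have hfn : ‖f‖ ^ p.toReal = (q n : ℝ) := by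
      rw [lp.norm_rpow_eq_tsum hp0]
      have hval : ∀ s : GG, f s = if s ∈ Finset.univ.image (ph n) then 1 else 0 := by
        intro s
        rw [hf, lp.coeFn_sum, Finset.sum_apply]
        by_cases hs : s ∈ Finset.univ.image (ph n)
        · rw [if_pos hs]
          obtain ⟨x, -, rfl⟩ := Finset.mem_image.mp hs
          rw [Finset.sum_eq_single x]
          · rw [lp.single_apply_self]
          · intro z _ hz
            rw [lp.single_apply_ne]
            intro h
            exact hz (ph_injective n h).symm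
          · intro h
            exact absurd (Finset.mem_univ _) h
        · rw [if_neg hs]
          refine Finset.sum_eq_zero (fun z _ => ?_)
          rw [lp.single_apply_ne]
          intro h
          exact hs (Finset.mem_image.mpr ⟨z, Finset.mem_univ _, h.symm⟩)
      rw [tsum_eq_sum (s := Finset.univ.image (ph n))]
      · rw [Finset.sum_congr rfl (g := fun _ => (1 : ℝ))]
        · rw [Finset.sum_const, Finset.card_image_of_injective _ (ph_injective n),
            Finset.card_univ, ZMod.card]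
          simp
        · intro s hs
          rw [hval, if_pos hs]
          simp
      · intro s hs
        rw [hval, if_neg hs]
        simp [Real.zero_rpow hp0.ne']
    have hlow : ∀ y : ZMod (q n), co n * ((q n : ℝ) - 1) ≤ ‖(P f) (ph n y)‖ := by
      intro y
      have e1 : (P f) (ph n y) = ∑ x : ZMod (q n), (P (lp.single p (ph n x) (1 : ℂ))) (ph n y) := by
        rw [hf, map_sum, lp.coeFn_sum, Finset.sum_apply]
      calc co n * ((q n : ℝ) - 1)
          = ∑ x ∈ Finset.univ.erase y, co n := by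
            rw [Finset.sum_const, Finset.card_erase_of_mem (Finset.mem_univ _), Finset.card_univ,
              ZMod.card, nsmul_eq_mul, Nat.cast_sub (Nat.one_le_pow _ _ (by norm_num))]
            push_cast
            ring
        _ ≤ ∑ x ∈ Finset.univ.erase y, ((P (lp.single p (ph n x) (1 : ℂ))) (ph n y)).re := by
            refine Finset.sum_le_sum (fun x hx => ?_)
            rw [← TT_coeff hp h1 n x y (Finset.ne_of_mem_erase hx)]
            exact hP _ _
        _ ≤ ∑ x, ((P (lp.single p (ph n x) (1 : ℂ))) (ph n y)).re := by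
            refine Finset.sum_le_sum_of_subset_of_nonneg (Finset.erase_subset _ _)
              (fun x _ _ => (norm_nonneg _).trans (hP _ _))
        _ = ((P f) (ph n y)).re := by rw [e1, Complex.re_sum]
        _ ≤ ‖(P f) (ph n y)‖ := Complex.re_le_norm _
    have h2 : (q n : ℝ) * (co n * ((q n : ℝ) - 1)) ^ p.toReal ≤ ‖P f‖ ^ p.toReal := by
      have h3 := lp.sum_rpow_le_norm_rpow hp0 (P f) (Finset.univ.image (ph n))
      rw [Finset.sum_image (fun x _ y _ h => ph_injective n h)] at h3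
      refine le_trans ?_ h3
      calc (q n : ℝ) * (co n * ((q n : ℝ) - 1)) ^ p.toReal
          = ∑ y : ZMod (q n), (co n * ((q n : ℝ) - 1)) ^ p.toReal := by
            rw [Finset.sum_const, Finset.card_univ, ZMod.card, nsmul_eq_mul]
        _ ≤ _ := Finset.sum_le_sum (fun y _ => Real.rpow_le_rpow
            (mul_nonneg hco (by linarith)) (hlow y) hp0.le)
    have h4 : ‖P f‖ ^ p.toReal ≤ ‖P‖ ^ p.toReal * (q n : ℝ) := by
      rw [← hfn, ← Real.mul_rpow (norm_nonneg _) (norm_nonneg _)]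
      exact Real.rpow_le_rpow (norm_nonneg _) (P.le_opNorm f) hp0.le
    have h5 : (co n * ((q n : ℝ) - 1)) ^ p.toReal ≤ ‖P‖ ^ p.toReal := by
      have := h2.trans h4
      rw [mul_comm] at this
      exact le_of_mul_le_mul_right this hN0
    exact (Real.rpow_le_rpow_iff (mul_nonneg hco (by linarith)) (norm_nonneg _) hp0).mp h5
  obtain ⟨n, hn⟩ := exists_nat_gt (2 * ‖P‖)
  have h := main (n + 1)
  have hN2 : (2 : ℝ) ≤ (q (n + 1) : ℝ) := by
    have : 2 ≤ q (n + 1) := by
      calc 2 ≤ 3 ^ 1 := by norm_num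
        _ ≤ 3 ^ (n + 1) := Nat.pow_le_pow_right (by norm_num) (by omega)
    exact_mod_cast this
  have h6 : ((n : ℝ) + 1) / 2 ≤ co (n + 1) * ((q (n + 1) : ℝ) - 1) := by
    unfold co
    rw [div_mul_eq_mul_div, div_le_div_iff₀ (by norm_num) (by linarith)]
    push_cast at hN2 ⊢
    nlinarith [Nat.cast_nonneg (α := ℝ) n]
  linarith

end ops

theorem span_of {p : ℝ≥0∞} [Fact (1 ≤ p)] {n : ℕ} (c : Fin n → ℂ)
    (P : Fin n → (EllP GG p →L[ℂ] EllP GG p)) (hP : ∀ k, IsPos (P k))
    (T : EllP GG p →L[ℂ] EllP GG p)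
    (hT : ∀ (f : EllP GG p) (s : GG), T f s = ∑ k, c k * P k f s) : IsRegular T := by
  have : T = ∑ k, c k • P k := by
    refine ContinuousLinearMap.ext (fun f => lp.ext (funext fun s => ?_))
    rw [hT, sum_apply, lp.coeFn_sum, Finset.sum_apply]
    rfl
  rw [this]
  exact Submodule.sum_mem _ (fun k _ => Submodule.smul_mem _ _ (Submodule.subset_span (hP k)))

/-- **Amenability is not necessary.** There is a non-amenable discrete group `G` such that for every
`1 < p < ∞` some bounded operator on `ℓ^p(G)` commutes with all right translations and is not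
regular. -/
theorem result : ∃ (G : Type) (_ : Group G), ¬ IsAmenable G ∧
    ∀ (p : ℝ≥0∞) [Fact (1 ≤ p)], 1 < p → p < ∞ →
      ∃ T : LL G p →L[ℂ] LL G p, CommutesWithRightTranslations T ∧ ¬ IsRegularOp T := by
  refine ⟨GG, inferInstance, not_amenable MM, ?_⟩
  intro p _ h1 h2
  refine ⟨TT h2.ne, TT_comm h2.ne h1, fun hreg => TT_not_regular h2.ne h1 ?_⟩
  obtain ⟨n, c, P, hP, hT⟩ := hreg
  exact span_of c P hP _ hT

end Pool.Agent.Results.MP_b39683_an.NonAmenableProper
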